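import Pool.Agent.H12.KTH.Stmts

/-!
# KTH, row GAP: a uniform time is far from a time which is determined by the conditioning
-/

set_option autoImplicit false

namespace Pool.KTH

open Finset Real
open Pool.Agent.H49.Ent Pool.Agent.H32.Dense

namespace GAP34

lemma sum_sqrt (n : ℕ) : ∑ k ∈ Finset.range n, (√(max 1 (k : ℝ)))⁻¹ ≤ 3 * √(n : ℝ) := by
  induction n with
  | zero => simp
  | succ n ih =>
    rw [Finset.sum_range_succ]
    rcases Nat.eq_zero_or_pos n with h | h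
    · subst h
      norm_num
    · have hn : (1 : ℝ) ≤ n := by exact_mod_cast h
      rw [max_eq_right hn]
      push_cast
      have h1 : 0 < √(n : ℝ) := Real.sqrt_pos.2 (by linarith)
      have h2 : √((n : ℝ) + 1) ^ 2 = n + 1 := Real.sq_sqrt (by linarith)
      have h3 : √(n : ℝ) ^ 2 = n := Real.sq_sqrt (by linarith)
      have h4 : √((n : ℝ) + 1) ≤ 2 * √(n : ℝ) := by
        rw [Real.sqrt_le_iff]
        exact ⟨by positivity, by nlinarith⟩
      have h5 : √(n : ℝ) ≤ √((n : ℝ) + 1) := Real.sqrt_le_sqrt (by linarith)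
      have h6 : 1 ≤ (3 * √((n : ℝ) + 1) - 3 * √(n : ℝ)) * √(n : ℝ) := by nlinarith
      have h7 : (√(n : ℝ))⁻¹ ≤ 3 * √((n : ℝ) + 1) - 3 * √(n : ℝ) := by
        rw [inv_le_iff_one_le_mul₀ h1]
        exact h6
      linarith

lemma sum_int (M : ℕ) (y : ℤ) (F : Finset ℤ) (hF : ∀ n ∈ F, 0 ≤ n ∧ n < M) :
    ∑ n ∈ F, (√(max 1 |(n : ℝ) - y|))⁻¹ ≤ 6 * √(M : ℝ) := by
  classical
  have key : ∀ (G : Finset ℤ) (φ : ℤ → ℕ), Set.InjOn φ (G : Set ℤ) →
      (∀ n ∈ G, φ n < M ∧ (φ n : ℝ) ≤ |(n : ℝ) - y|) →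
      ∑ n ∈ G, (√(max 1 |(n : ℝ) - y|))⁻¹ ≤ 3 * √(M : ℝ) := by
    intro G φ hφ hG
    have e1 : ∑ n ∈ G, (√(max 1 |(n : ℝ) - y|))⁻¹ ≤ ∑ n ∈ G, (√(max 1 (φ n : ℝ)))⁻¹ := by
      refine Finset.sum_le_sum fun n hn => ?_
      have h1 := (hG n hn).2
      refine inv_anti₀ (Real.sqrt_pos.2 (lt_of_lt_of_le one_pos (le_max_left _ _)))
        (Real.sqrt_le_sqrt (max_le_max le_rfl h1))
    have e2 : ∑ n ∈ G, (√(max 1 (φ n : ℝ)))⁻¹ = ∑ k ∈ G.image φ, (√(max 1 (k : ℝ)))⁻¹ := by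
      rw [Finset.sum_image hφ]
    rw [e2] at e1
    have hN : G.image φ ⊆ Finset.range M := by
      intro k hk
      obtain ⟨n, hn, rfl⟩ := Finset.mem_image.1 hk
      exact Finset.mem_range.2 (hG n hn).1
    exact e1.trans ((Finset.sum_le_sum_of_subset_of_nonneg hN
      (fun _ _ _ => by positivity)).trans (sum_sqrt M))
  have h1 := key (F.filter fun n => y ≤ n) (fun n => (n - max y 0).toNat) (by
    intro a ha b hb h
    simp only [coe_filter, Set.mem_ofPred_eq] at ha hb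
    have := ha.2
    have := hb.2
    have := (hF a ha.1).1
    have := (hF b hb.1).1
    simp only at h
    omega) (by
    intro n hn
    rw [Finset.mem_filter] at hn
    have h0 := hF n hn.1
    have h2 : ((n - max y 0).toNat : ℤ) = n - max y 0 :=
      Int.toNat_of_nonneg (by have := hn.2; omega)
    refine ⟨by omega, ?_⟩
    have h3 : (((n - max y 0).toNat : ℕ) : ℝ) = (n : ℝ) - ((max y 0 : ℤ) : ℝ) := by
      exact_mod_cast h2
    rw [h3]
    have h4 : (y : ℝ) ≤ ((max y 0 : ℤ) : ℝ) := by exact_mod_cast le_max_left y 0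
    exact le_trans (by linarith) (le_abs_self _))
  have h2 := key (F.filter fun n => ¬ y ≤ n) (fun n => (min y M - 1 - n).toNat) (by
    intro a ha b hb h
    simp only [coe_filter, Set.mem_ofPred_eq] at ha hb
    have := ha.2
    have := hb.2
    have := (hF a ha.1).2
    have := (hF b hb.1).2
    simp only at h
    omega) (by
    intro n hn
    rw [Finset.mem_filter] at hn
    have h0 := hF n hn.1
    have h2 : ((min y M - 1 - n).toNat : ℤ) = min y M - 1 - n :=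
      Int.toNat_of_nonneg (by have := hn.2; omega)
    refine ⟨by omega, ?_⟩
    have h3 : (((min y M - 1 - n).toNat : ℕ) : ℝ) = ((min y M : ℤ) : ℝ) - 1 - n := by
      exact_mod_cast h2
    rw [h3]
    have h4 : ((min y M : ℤ) : ℝ) ≤ (y : ℝ) := by exact_mod_cast min_le_left y (M : ℤ)
    exact le_trans (by linarith) (neg_le_abs _))
  rw [← Finset.sum_filter_add_sum_filter_not F (fun n => y ≤ n)]
  linarith

/-- The mass of the kernel. -/
lemma mass (J : ℕ) (y : ℤ) (F : Finset ℤ) (hF : ∀ n ∈ F, 0 ≤ n ∧ n < 2 ^ J) :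
    ∑ n ∈ F, √(1 + 2 ^ J / max 1 |(n : ℝ) - y|) ≤ 7 * 2 ^ J := by
  have hM : (0 : ℝ) < 2 ^ J := by positivity
  have h1 : ∀ n ∈ F, √(1 + 2 ^ J / max 1 |(n : ℝ) - y|) ≤
      1 + √(2 ^ J) * (√(max 1 |(n : ℝ) - y|))⁻¹ := by
    intro n _
    have h2 : (0 : ℝ) < max 1 |(n : ℝ) - y| := lt_of_lt_of_le one_pos (le_max_left _ _)
    rw [← div_eq_mul_inv, ← Real.sqrt_div hM.le, Real.sqrt_le_iff]
    refine ⟨by positivity, ?_⟩
    have h3 : 0 ≤ 2 ^ J / max 1 |(n : ℝ) - y| := by positivity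
    have h4 := Real.sq_sqrt h3
    have h5 := Real.sqrt_nonneg (2 ^ J / max 1 |(n : ℝ) - y|)
    nlinarith
  refine (Finset.sum_le_sum h1).trans ?_
  rw [Finset.sum_add_distrib, ← Finset.mul_sum]
  have h2 : ∑ n ∈ F, (1 : ℝ) ≤ 2 ^ J := by
    rw [Finset.sum_const, nsmul_eq_mul, mul_one]
    have h3 : F ⊆ Finset.Ico (0 : ℤ) (2 ^ J) := fun n hn => by
      rw [Finset.mem_Ico]; exact hF n hn
    have h4 := Finset.card_le_card h3
    rw [Int.card_Ico, sub_zero] at h4
    have h5 : ((2 : ℤ) ^ J).toNat = 2 ^ J := by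
      have : ((2 : ℤ) ^ J) = ((2 ^ J : ℕ) : ℤ) := by push_cast; rfl
      rw [this, Int.toNat_natCast]
    rw [h5] at h4
    exact_mod_cast h4
  have h3 := sum_int (2 ^ J) y F (fun n hn => by
    have := hF n hn
    push_cast
    exact this)
  have h4 : √((2 : ℝ) ^ J) * ∑ n ∈ F, (√(max 1 |(n : ℝ) - y|))⁻¹ ≤
      √((2 : ℝ) ^ J) * (6 * √((2 : ℝ) ^ J)) := by
    refine mul_le_mul_of_nonneg_left ?_ (Real.sqrt_nonneg _)
    push_cast at h3
    exact h3
  have h5 : √((2 : ℝ) ^ J) * √((2 : ℝ) ^ J) = 2 ^ J := Real.mul_self_sqrt hM.le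
  nlinarith

end GAP34

open GAP34 in
theorem gap : GAPStmt := by
  classical
  refine ⟨2 * Real.log 7, by have := Real.log_nonneg (show (1 : ℝ) ≤ 7 by norm_num); linarith, ?_⟩
  intro J Ω δ _ q W x y e hq h1 hx hy hCH
  -- the value as a function of `W`
  obtain ⟨f, hf⟩ : ∃ f : δ → ℤ, ∀ w, 0 < q w → f (W w) = y w := by
    refine ⟨fun z => if h : ∃ w, 0 < q w ∧ W w = z then y h.choose else 0, fun w hw => ?_⟩
    have h : ∃ w', 0 < q w' ∧ W w' = W w := ⟨w, hw, rfl⟩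
    simp only [dif_pos h]
    exact hy _ _ h.choose_spec.1 hw h.choose_spec.2
  have hM : (0 : ℝ) < 2 ^ J := by positivity
  have hg : ∀ n m : ℤ, (0 : ℝ) < 1 + 2 ^ J / max 1 |(n : ℝ) - m| := fun n m => by
    have h2 : (0 : ℝ) < max 1 |(n : ℝ) - m| := lt_of_lt_of_le one_pos (le_max_left _ _)
    positivity
  have h := CH_le_cross hq h1 x W
    (fun z n => if 0 ≤ n ∧ n < 2 ^ J then
      (7 * 2 ^ J : ℝ)⁻¹ * √(1 + 2 ^ J / max 1 |(n : ℝ) - f z|) else 0)
    (fun w hw => by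
      rw [if_pos (hx w hw)]
      have := hg (x w) (f (W w))
      positivity)
    (fun z n => by
      split_ifs
      · positivity
      · exact le_rfl)
    (fun w hw F => by
      rw [← Finset.sum_filter, ← Finset.mul_sum]
      have h3 := mass J (f (W w)) (F.filter fun n => 0 ≤ n ∧ n < 2 ^ J)
        (fun n hn => (Finset.mem_filter.1 hn).2)
      rw [inv_mul_le_iff₀ (by positivity), mul_one]
      exact h3)
  have e1 : Ex q (fun w => -Real.log (if 0 ≤ x w ∧ x w < 2 ^ J then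
      (7 * 2 ^ J : ℝ)⁻¹ * √(1 + 2 ^ J / max 1 |(x w : ℝ) - f (W w)|) else 0)) ≤
      Ex q (fun w => (Real.log 7 + lm J) + (-(1 / 2)) * gp J (x w) (y w)) := by
    refine Ex_mono hq fun w hw => ?_
    rw [if_pos (hx w hw), hf w hw, Real.log_mul (by positivity) (by
      have := hg (x w) (y w)
      positivity), Real.log_inv, Real.log_mul (by norm_num) (by positivity), Real.log_pow,
      Real.log_sqrt (hg (x w) (y w)).le]
    unfold lm gp
    linarith
  rw [Ex_add, Ex_const h1, Ex_smul] at e1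
  linarith

end Pool.KTH
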