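import Pool.Agent.H12.KTH.Stmts

/-!
# KTH, row AXI: lower bounds for `xi`
-/

set_option autoImplicit false

namespace Pool.KTH

open Finset Real
open Pool.Agent.H49.Ent Pool.Agent.H32.Dense
open Pool.Agent.H24.KTH (dsv lvv lev cap Yf kp LevOne LevPlus LevZero)

namespace AXI34

/-- errors are small against `lm J` -/
theorem er_small (C ε : ℝ) (hC : 0 ≤ C) (hε : 0 < ε) : ∃ θ : ℝ, 0 < θ ∧ ∃ J₀ : ℕ,
    ∀ J : ℕ, J₀ ≤ J → ∀ e : ℝ, e ≤ θ * lm J → C * er J e ≤ ε * lm J := by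
  have hl2 : 0 < Real.log 2 := Real.log_pos (by norm_num)
  obtain ⟨D, hD⟩ : ∃ D : ℝ, D = C + 1 := ⟨_, rfl⟩
  have hD0 : 0 < D := by rw [hD]; linarith
  have hlim : Filter.Tendsto (fun J : ℕ => (1 + Real.log ((J : ℝ) + 2)) / ((J : ℝ) + 2))
      Filter.atTop (nhds 0) := by
    have h1 : Filter.Tendsto (fun x : ℝ => (1 + Real.log x) / x) Filter.atTop (nhds 0) := by
      have h2 : (fun x : ℝ => (1 + Real.log x)) =o[Filter.atTop] (fun x : ℝ => x) := by
        refine Asymptotics.IsLittleO.add ?_ Real.isLittleO_log_id_atTop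
        exact Asymptotics.isLittleO_const_id_atTop (1 : ℝ)
      exact h2.tendsto_div_nhds_zero
    have h3 : Filter.Tendsto (fun J : ℕ => (J : ℝ) + 2) Filter.atTop Filter.atTop :=
      Filter.tendsto_atTop_add_const_right _ _ tendsto_natCast_atTop_atTop
    exact h1.comp h3
  have hδ : 0 < ε * Real.log 2 / (4 * D) := by positivity
  obtain ⟨J₁, hJ₁⟩ := Filter.eventually_atTop.1 (hlim.eventually (gt_mem_nhds hδ))
  refine ⟨ε / (2 * D), by positivity, max J₁ 2, ?_⟩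
  intro J hJ e he
  have hJ1 : J₁ ≤ J := (le_max_left _ _).trans hJ
  have hJ2 : 2 ≤ J := (le_max_right _ _).trans hJ
  have hJ2' : (2 : ℝ) ≤ J := by exact_mod_cast hJ2
  have h1 := hJ₁ J hJ1
  have hpos : (0 : ℝ) < (J : ℝ) + 2 := by linarith
  rw [div_lt_iff₀ hpos] at h1
  have h2 : 1 + Real.log ((J : ℝ) + 2) ≤ ε * Real.log 2 / (4 * D) * (2 * J) := by
    refine h1.le.trans ?_
    refine mul_le_mul_of_nonneg_left (by linarith) hδ.le
  have h3 : D * er J e ≤ ε * lm J := by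
    unfold er
    have h4 : D * e ≤ D * (ε / (2 * D) * lm J) := mul_le_mul_of_nonneg_left he hD0.le
    have h5 : D * (ε / (2 * D) * lm J) = ε / 2 * lm J := by field_simp
    have h6 : D * (1 + Real.log ((J : ℝ) + 2)) ≤ D * (ε * Real.log 2 / (4 * D) * (2 * J)) :=
      mul_le_mul_of_nonneg_left h2 hD0.le
    have h7 : D * (ε * Real.log 2 / (4 * D) * (2 * J)) = ε / 2 * lm J := by
      unfold lm
      field_simp
      ring
    have h8 : D * (e + 1 + Real.log ((J : ℝ) + 2)) = D * e + D * (1 + Real.log ((J : ℝ) + 2)) := by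
      ring
    rw [h8]
    linarith
  by_cases her : 0 ≤ er J e
  · refine le_trans (mul_le_mul_of_nonneg_right ?_ her) h3
    linarith
  · have : C * er J e ≤ 0 := mul_nonpos_of_nonneg_of_nonpos hC (not_le.1 her).le
    refine this.trans ?_
    unfold lm
    positivity

variable {d J : ℕ}

/-- two chain rules -/
theorem swap {Ω S T U : Type} [Fintype Ω] {p : Ω → ℝ} (hp : ∀ ω, 0 ≤ p ω) (X : Ω → S) (Y : Ω → T)
    (W : Ω → U) : CH p X W = CH p Y W + CH p X (fun ω => (Y ω, W ω)) -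
      CH p Y (fun ω => (X ω, W ω)) := by
  have h1 := CH_chain hp X Y W
  have h2 := CH_chain hp Y X W
  have h3 : CH p (fun ω => (X ω, Y ω)) W = CH p (fun ω => (Y ω, X ω)) W := by
    refine CH_congr hp ?_ ?_ (fun _ _ _ _ h => h) (fun _ _ _ _ h => h) <;>
    · intro ω ω' _ _ h
      simp only [Prod.mk.injEq] at h ⊢
      tauto
  linarith

theorem time_le {Ω T : Type} [Fintype Ω] {p : Ω → ℝ} (hp : ∀ ω, 0 ≤ p ω) (h1 : ∑ ω, p ω = 1)
    {τ : Ω → ℤ} {J : ℕ} (hτ : ∀ ω, 0 < p ω → 0 ≤ τ ω ∧ τ ω < ((2 ^ J : ℕ) : ℤ)) (W : Ω → T) :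
    CH p τ W ≤ lm J := by
  have h := CH_time_le hp h1 hτ W
  refine h.trans (le_of_eq ?_)
  unfold lm
  push_cast
  rw [Real.log_pow]

/-- the inequality with all terms -/
theorem core (F : Cf d J) (A B : ℝ)
    (hta : lm J - A ≤ CH F.q F.ta
      (fun w => (F.v3 w, (F.t w, F.s w, F.tr w, F.c₂ w), F.Z w)))
    (htb : lm J - A ≤ CH F.q F.ta
      (fun w => (F.v3 w, (F.t w, F.s w), (F.t₁ w, F.r w, F.tr w), F.Z w)))
    (hcT : 2 * lm J - A ≤ CH F.q (fun w => (F.c w, F.TY w))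
      (fun w => (F.v3 w, (F.t w, F.s w, F.ta w), F.Z w)))
    (hYl : 2 * lm J - F.y12 - A ≤ CH F.q F.Y (fun w => (F.v12 w, (F.s w, F.ta w), F.Z w)))
    (hYu : CH F.q F.Y (fun w => (F.v12 w, F.Z w)) ≤ 2 * lm J - F.y12 + A)
    (hth : CH F.q F.v₁ (fun w => (F.O w, F.v₂ w, (F.ta w, F.Y w), F.Z w)) ≤ B) :
    F.et + F.qs + F.y12 - CH F.q F.s (fun w => (F.v12 w, F.O w, F.Z w)) - B - 6 * A ≤ F.xi := by
  have hq := F.hq
  have hdet : ∀ (w w' : F.Ω), 0 < F.q w → 0 < F.q w' → F.v₂ w = F.v₂ w' → F.Z w = F.Z w' →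
      F.u₂ w = F.u₂ w' := fun w w' a b h1 h2 => F.hu₂ w w' a b (Prod.ext h1 h2)
  -- f1
  have f1 : CH F.q F.O (fun w => (F.v₂ w, (F.ta w, F.Y w), F.Z w)) ≤ F.xi := by
    unfold Cf.xi
    refine CH_mono_cond hq ?_
    intro w w' a b h
    simp only [Prod.mk.injEq] at h
    obtain ⟨h1, ⟨h2, h3⟩, h4⟩ := h
    have h5 := hdet w w' a b h1 h4
    simp only [Prod.mk.injEq]
    refine ⟨?_, h3, h4⟩
    simp only [Cf.A₂, pp, h1, h2, h5]
  -- f2
  have f2 := swap hq F.O F.v₁ (fun w => (F.v₂ w, (F.ta w, F.Y w), F.Z w))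
  -- f3
  have f3 := swap hq F.v₁ F.ta (fun w => (F.v₂ w, F.Y w, F.Z w))
  have f3a : CH F.q F.ta (fun w => (F.v₂ w, F.Y w, F.Z w)) ≤ lm J := time_le hq F.h1 F.hta _
  have f3b : lm J - A ≤ CH F.q F.ta (fun w => (F.v₁ w, F.v₂ w, F.Y w, F.Z w)) := by
    refine hta.trans (CH_mono_cond hq ?_)
    intro w w' a b h
    simp only [Cf.v3, Prod.mk.injEq] at h
    obtain ⟨⟨h0, h1, h2⟩, ⟨h3, h4, h5, h6⟩, h7⟩ := h
    have h8 := hdet w w' a b h2 h7
    simp only [Prod.mk.injEq]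
    refine ⟨h1, h2, ?_, h7⟩
    simp only [Cf.Y, h1, h2, h5, h6, h8]
  have f3c : CH F.q F.v₁ (fun w => (F.ta w, F.v₂ w, F.Y w, F.Z w)) =
      CH F.q F.v₁ (fun w => (F.v₂ w, (F.ta w, F.Y w), F.Z w)) := by
    refine CH_congr hq (fun _ _ _ _ h => (Prod.ext_iff.mp h).1) (fun _ _ _ _ h => (Prod.ext_iff.mp h).1)
      ?_ ?_ <;>
    · intro w w' a b h
      simp only [Prod.mk.injEq] at h ⊢
      tauto
  have het : CH F.q F.v₁ (fun w => (F.v₂ w, F.Y w, F.Z w)) = F.et := rfl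
  -- f4
  have f4 := swap hq F.O F.s (fun w => (F.v₁ w, F.v₂ w, (F.ta w, F.Y w), F.Z w))
  have f4a : CH F.q F.s (fun w => (F.O w, F.v₁ w, F.v₂ w, (F.ta w, F.Y w), F.Z w)) ≤
      CH F.q F.s (fun w => (F.v12 w, F.O w, F.Z w)) := by
    refine CH_mono_cond hq ?_
    intro w w' a b h
    simp only [Cf.v12, Prod.mk.injEq] at h ⊢
    tauto
  -- f5
  have f5 := swap hq F.s (fun w => (F.ta w, F.Y w)) (fun w => (F.v₁ w, F.v₂ w, F.Z w))
  have hqs : CH F.q F.s (fun w => (F.v₁ w, F.v₂ w, F.Z w)) = F.qs := rfl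
  have f5a : CH F.q F.s (fun w => ((F.ta w, F.Y w), F.v₁ w, F.v₂ w, F.Z w)) =
      CH F.q F.s (fun w => (F.v₁ w, F.v₂ w, (F.ta w, F.Y w), F.Z w)) := by
    refine CH_congr hq (fun _ _ _ _ h => (Prod.ext_iff.mp h).1) (fun _ _ _ _ h => (Prod.ext_iff.mp h).1)
      ?_ ?_ <;>
    · intro w w' a b h
      simp only [Prod.mk.injEq] at h ⊢
      tauto
  have f5b : CH F.q (fun w => (F.ta w, F.Y w)) (fun w => (F.v₁ w, F.v₂ w, F.Z w)) ≤
      lm J + (2 * lm J - F.y12 + A) := by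
    refine (CH_subadd hq F.ta F.Y _).trans ?_
    refine add_le_add (time_le hq F.h1 F.hta _) ?_
    refine le_trans (le_of_eq ?_) hYu
    refine CH_congr hq (fun _ _ _ _ h => (Prod.ext_iff.mp h).1) (fun _ _ _ _ h => (Prod.ext_iff.mp h).1)
      ?_ ?_ <;>
    · intro w w' a b h
      simp only [Cf.v12, Prod.mk.injEq] at h ⊢
      tauto
  have f5c : (lm J - A) + (2 * lm J - F.y12 - A) ≤
      CH F.q (fun w => (F.ta w, F.Y w)) (fun w => (F.s w, F.v₁ w, F.v₂ w, F.Z w)) := by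
    have h1 := CH_chain hq F.Y F.ta (fun w => (F.s w, F.v₁ w, F.v₂ w, F.Z w))
    have h2 : CH F.q (fun w => (F.Y w, F.ta w)) (fun w => (F.s w, F.v₁ w, F.v₂ w, F.Z w)) =
        CH F.q (fun w => (F.ta w, F.Y w)) (fun w => (F.s w, F.v₁ w, F.v₂ w, F.Z w)) := by
      refine CH_congr hq ?_ ?_ (fun _ _ _ _ h => h) (fun _ _ _ _ h => h) <;>
      · intro w w' a b h
        simp only [Prod.mk.injEq] at h ⊢
        tauto
    have h3 : lm J - A ≤ CH F.q F.ta (fun w => (F.s w, F.v₁ w, F.v₂ w, F.Z w)) := by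
      refine htb.trans (CH_mono_cond hq ?_)
      intro w w' a b h
      simp only [Cf.v3, Prod.mk.injEq] at h ⊢
      tauto
    have h4 : 2 * lm J - F.y12 - A ≤
        CH F.q F.Y (fun w => (F.ta w, F.s w, F.v₁ w, F.v₂ w, F.Z w)) := by
      refine hYl.trans (CH_mono_cond hq ?_)
      intro w w' a b h
      simp only [Cf.v12, Prod.mk.injEq] at h ⊢
      tauto
    linarith
  -- f6
  have f6 : CH F.q F.c (fun w => (F.s w, F.v₁ w, F.v₂ w, (F.ta w, F.Y w), F.Z w)) ≤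
      CH F.q F.O (fun w => (F.s w, F.v₁ w, F.v₂ w, (F.ta w, F.Y w), F.Z w)) := by
    refine CH_mono_left hq ?_
    intro w w' a b h
    simp only [Prod.mk.injEq] at h
    have h1 : (F.O w).1 = (F.O w').1 := by rw [h.1]
    have h2 : F.s w + F.c w = F.s w' + F.c w' := h1
    have h3 : F.s w = F.s w' := h.2.1
    linarith
  have f6a := CH_chain hq F.c F.Y (fun w => (F.s w, F.v₁ w, F.v₂ w, F.ta w, F.Z w))
  have f6b : CH F.q F.c (fun w => (F.Y w, F.s w, F.v₁ w, F.v₂ w, F.ta w, F.Z w)) =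
      CH F.q F.c (fun w => (F.s w, F.v₁ w, F.v₂ w, (F.ta w, F.Y w), F.Z w)) := by
    refine CH_congr hq (fun _ _ _ _ h => (Prod.ext_iff.mp h).1) (fun _ _ _ _ h => (Prod.ext_iff.mp h).1)
      ?_ ?_ <;>
    · intro w w' a b h
      simp only [Prod.mk.injEq] at h ⊢
      tauto
  have f6c : CH F.q F.Y (fun w => (F.s w, F.v₁ w, F.v₂ w, F.ta w, F.Z w)) ≤
      2 * lm J - F.y12 + A := by
    refine le_trans (CH_mono_cond hq ?_) hYu
    intro w w' a b h
    simp only [Cf.v12, Prod.mk.injEq] at h ⊢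
    tauto
  have f6d : 2 * lm J - A ≤
      CH F.q (fun w => (F.c w, F.Y w)) (fun w => (F.s w, F.v₁ w, F.v₂ w, F.ta w, F.Z w)) := by
    refine hcT.trans ?_
    refine le_trans (CH_mono_cond hq (W := fun w => (F.s w, F.v₁ w, F.v₂ w, F.ta w, F.Z w)) ?_)
      (CH_mono_left hq ?_)
    · intro w w' a b h
      simp only [Cf.v3, Prod.mk.injEq] at h ⊢
      tauto
    · intro w w' a b h
      simp only [Prod.mk.injEq] at h ⊢
      obtain ⟨⟨h1, h2⟩, h3⟩ := h
      refine ⟨h1, ?_⟩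
      have h4 : (F.Y w).1 = (F.Y w').1 := by rw [h2]
      exact h4
  linarith

end AXI34

open AXI34 in
/-- **AXI**. -/
theorem axi (hUFD : UFDStmt) (hSEP : SEPStmt) (hTMS : TMSStmt) (hPAL : PALStmt) (hPAR : PARStmt)
    (hFCO : FCOStmt) : AXIStmt := by
  intro d hd
  obtain ⟨-, -, ⟨C1, hC1, h1⟩, ⟨C2, hC2, h2⟩⟩ := hUFD d
  obtain ⟨-, ⟨C3, hC3, h3⟩⟩ := hSEP d hd
  obtain ⟨h4, -⟩ := hTMS d
  obtain ⟨-, ⟨C5, hC5, h5⟩⟩ := hPAL d hd
  obtain ⟨-, ⟨C6, hC6, h6⟩⟩ := hPAR d hd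
  have hFC := hFCO d hd
  obtain ⟨D, hD⟩ : ∃ D : ℝ, D = C1 + C2 + C3 + C5 + C6 + 1 := ⟨_, rfl⟩
  have hD0 : 0 ≤ D := by rw [hD]; linarith
  -- the common part
  have key : ∀ (J : ℕ) (F : Cf d J) (L sb e : ℝ), F.Ok L sb e → ∀ B : ℝ,
      CH F.q F.v₁ (fun w => (F.O w, F.v₂ w, (F.ta w, F.Y w), F.Z w)) ≤ B →
      F.et + F.qs + F.y12 - CH F.q F.s (fun w => (F.v12 w, F.O w, F.Z w)) - B -
        6 * (D * er J e) ≤ F.xi ∧
      CH F.q F.s (fun w => (F.v12 w, F.O w, F.Z w)) ≤ F.y12 + D * er J e := by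
    intro J F L sb e hF B hB
    have hlog : 0 ≤ Real.log ((J : ℝ) + 2) := Real.log_nonneg (by
      have : (0 : ℝ) ≤ J := Nat.cast_nonneg _
      linarith)
    have her : 0 ≤ er J e := by
      unfold er
      have := hF.e0
      linarith
    have hee : e ≤ er J e := by
      unfold er
      linarith
    have b1 : C1 * er J e ≤ D * er J e := mul_le_mul_of_nonneg_right (by linarith) her
    have b2 : C2 * er J e ≤ D * er J e := mul_le_mul_of_nonneg_right (by linarith) her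
    have b3 : C3 * er J e ≤ D * er J e := mul_le_mul_of_nonneg_right (by linarith) her
    have b5 : C5 * er J e ≤ D * er J e := mul_le_mul_of_nonneg_right (by linarith) her
    have b6 : C6 * er J e ≤ D * er J e := mul_le_mul_of_nonneg_right (by linarith) her
    have b7 : e ≤ D * er J e := by
      have : 1 * er J e ≤ D * er J e := mul_le_mul_of_nonneg_right (by linarith) her
      linarith
    have g1 := h1 J F L sb e hF
    have g2 := h2 J F L sb e hF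
    have g3 := h3 J F L sb e hF
    have g4 := (h4 J F L sb e hF).2.2.2
    have g5 := h5 J F L sb e hF
    have g6 := h6 J F L sb e hF
    refine ⟨core F (D * er J e) B ?_ ?_ ?_ ?_ ?_ hB, ?_⟩ <;> linarith
  refine ⟨⟨7 * D, by linarith, ?_⟩, ?_⟩
  · intro J F L sb e hF
    have h := key J F L sb e hF F.et (CH_mono_cond F.hq (by
      intro w w' a b h
      simp only [Prod.mk.injEq] at h ⊢
      tauto))
    linarith [h.1, h.2]
  · intro ε hε
    obtain ⟨θ₁, hθ₁, J₁, hJ₁⟩ := hFC (ε / 2) (by positivity)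
    obtain ⟨θ₂, hθ₂, J₂, hJ₂⟩ := er_small (6 * D) (ε / 2) (by linarith) (by positivity)
    refine ⟨min θ₁ θ₂, lt_min hθ₁ hθ₂, max J₁ J₂, ?_⟩
    intro J hJ F L sb e he hF
    have hlm : 0 ≤ lm J := by
      unfold lm
      positivity
    have he1 : e ≤ θ₁ * lm J :=
      he.trans (mul_le_mul_of_nonneg_right (min_le_left _ _) hlm)
    have he2 : e ≤ θ₂ * lm J :=
      he.trans (mul_le_mul_of_nonneg_right (min_le_right _ _) hlm)
    have k1 := hJ₁ J ((le_max_left _ _).trans hJ) F L sb e he1 hF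
    have k2 := hJ₂ J ((le_max_right _ _).trans hJ) e he2
    have h := (key J F L sb e hF (CH F.q F.v₁ (fun w => (F.O w, F.v₂ w, F.Z w))) (CH_mono_cond F.hq (by
      intro w w' a b h
      simp only [Prod.mk.injEq] at h ⊢
      tauto))).1
    have k3 : ε / 2 * lm J + ε / 2 * lm J = ε * lm J := by ring
    linarith

end Pool.KTH
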